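import Mathlib
import Pool.Agent.Helper283.ThV.PLF

/-!
# Generation of groups of dyadic piecewise linear homeomorphisms: basic facts
-/

set_option autoImplicit false

namespace Pool.Agent.Helper284.Spread

open Pool.Agent.Helper283.PL

/-! ### `F` is generated by two elements -/

theorem affmem (w : List Bool) {x : ℝ} (h0 : 0 ≤ x) (h1 : x ≤ 1) : 0 ≤ aff w x ∧ aff w x ≤ 1 :=
  aff_in_10184 w h0 h1

theorem em_mem_closure (w : List Bool) :
    em w X ∈ Subgroup.closure ({X, em [true] X} : Set (Sup 0 1)) := by
  set K := Subgroup.closure ({X, em [true] X} : Set (Sup 0 1)) with hK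
  have hX : X ∈ K := Subgroup.subset_closure (by simp)
  have hX1 : em [true] X ∈ K := Subgroup.subset_closure (by simp)
  have hX0 : em [false] X ∈ K := by
    have h : em [false] X = (em [true] X * X)⁻¹ * (X * X) := by
      rw [pentagon]; group
    rw [h]
    exact K.mul_mem (K.inv_mem (K.mul_mem hX1 hX)) (K.mul_mem hX hX)
  have key : ∀ n : ℕ, ∀ w : List Bool, w.length = n → em w X ∈ K := by
    intro n
    induction n using Nat.strong_induction_on with
    | _ n ih =>
      intro w hw
      have h11 : ∀ u : List Bool, u.length + 2 = n → em (true :: true :: u) X ∈ K := by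
        intro u hu
        have h1 : X * em (true :: u) X = em (true :: true :: u) X * X := by
          apply conj_10184
          intro x h0 h1
          obtain ⟨a0, a1⟩ := affmem u h0 h1
          exact X3 a0 a1
        have h2 : em (true :: true :: u) X = X * em (true :: u) X * X⁻¹ := by
          rw [h1]; group
        rw [h2]
        exact K.mul_mem (K.mul_mem hX (ih (u.length + 1) (by omega) _ (by simp))) (K.inv_mem hX)
      have h00 : ∀ u : List Bool, u.length + 2 = n → em (false :: false :: u) X ∈ K := by
        intro u hu
        have h1 : X * em (false :: false :: u) X = em (false :: u) X * X := by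
          apply conj_10184
          intro x h0 h1
          obtain ⟨a0, a1⟩ := affmem u h0 h1
          exact X1 a0 a1
        have h2 : em (false :: false :: u) X = X⁻¹ * em (false :: u) X * X := by
          rw [mul_assoc, ← h1]; group
        rw [h2]
        exact K.mul_mem (K.mul_mem (K.inv_mem hX) (ih (u.length + 1) (by omega) _ (by simp))) hX
      have h10 : ∀ u : List Bool, u.length + 2 = n → em (true :: false :: u) X ∈ K := by
        intro u hu
        cases u with
        | nil =>
          have h1 := congrArg (em [true]) pentagon
          rw [map_mul, map_mul, map_mul, em_em, em_em] at h1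
          have h2 : em [true, false] X =
              (em [true, true] X * em [true] X)⁻¹ * (em [true] X * em [true] X) := by
            have h3 : em [true] X * em [true] X =
              em [true, true] X * em [true] X * em [true, false] X := h1
            rw [h3]; group
          rw [h2]
          exact K.mul_mem (K.inv_mem (K.mul_mem (h11 [] hu) hX1)) (K.mul_mem hX1 hX1)
        | cons c v =>
          cases c with
          | false =>
            have h1 : em [true] X * em (true :: false :: false :: v) X =
                em (true :: false :: v) X * em [true] X := by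
              apply conj_10184
              intro x h0 h1
              obtain ⟨a0, a1⟩ := affmem v h0 h1
              obtain ⟨b0, b1⟩ := affmem (false :: false :: v) h0 h1
              have := em_apply [true] X b0 b1
              rw [show (X : Equiv.Perm ℝ) (aff (false :: false :: v) x) = aff (false :: v) x from
                X1 a0 a1] at this
              exact this
            have h2 : em (true :: false :: false :: v) X =
                (em [true] X)⁻¹ * em (true :: false :: v) X * em [true] X := by
              rw [mul_assoc, ← h1]; group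
            rw [h2]
            have hl : v.length + 2 < n := by simp at hu; omega
            exact K.mul_mem (K.mul_mem (K.inv_mem hX1) (ih (v.length + 2) hl _ (by simp))) hX1
          | true =>
            have h1 : em [true] X * em (true :: false :: true :: v) X =
                em (true :: true :: false :: v) X * em [true] X := by
              apply conj_10184
              intro x h0 h1
              obtain ⟨a0, a1⟩ := affmem v h0 h1
              obtain ⟨b0, b1⟩ := affmem (false :: true :: v) h0 h1
              have := em_apply [true] X b0 b1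
              rw [show (X : Equiv.Perm ℝ) (aff (false :: true :: v) x) = aff (true :: false :: v) x from
                X2 a0 a1] at this
              exact this
            have h2 : em (true :: false :: true :: v) X =
                (em [true] X)⁻¹ * em (true :: true :: false :: v) X * em [true] X := by
              rw [mul_assoc, ← h1]; group
            rw [h2]
            exact K.mul_mem (K.mul_mem (K.inv_mem hX1)
              (h11 (false :: v) (by simpa using hu))) hX1
      match w, hw with
      | [], _ => rw [em_nil10185]; exact hX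
      | [false], _ => exact hX0
      | [true], _ => exact hX1
      | false :: false :: u, h => exact h00 u (by simpa using h)
      | true :: true :: u, h => exact h11 u (by simpa using h)
      | true :: false :: u, h => exact h10 u (by simpa using h)
      | false :: true :: u, h =>
        have h1 : X * em (false :: true :: u) X = em (true :: false :: u) X * X := by
          apply conj_10184
          intro x h0 h1
          obtain ⟨a0, a1⟩ := affmem u h0 h1
          exact X2 a0 a1
        have h2 : em (false :: true :: u) X = X⁻¹ * em (true :: false :: u) X * X := by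
          rw [mul_assoc, ← h1]; group
        rw [h2]
        exact K.mul_mem (K.mul_mem (K.inv_mem hX) (h10 u (by simpa using h))) hX
  exact key w.length w rfl

/-- `F` is generated by two elements -/
theorem gen_two (h : Sup 0 1) : h ∈ Subgroup.closure ({X, em [true] X} : Set (Sup 0 1)) := by
  have h1 := gen_X h
  refine (Subgroup.closure_le _).2 ?_ h1
  rintro _ ⟨w, rfl⟩
  exact em_mem_closure w

/-- the group of dyadic maps supported in a dyadic interval is generated by two elements -/
theorem gen_two_interval {a b : ℝ} (ha : Dy a) (hb : Dy b) (hab : a < b) :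
    ∃ v1 ∈ Sup a b, ∃ v2 ∈ Sup a b, ∀ M : Subgroup (Equiv.Perm ℝ), v1 ∈ M → v2 ∈ M → Sup a b ≤ M := by
  obtain ⟨P, hP, hP0, hP1⟩ := PLH_interp Dy.zero Dy.one ha hb zero_lt_one hab
  refine ⟨P * X * P⁻¹, conj_Sup_10186 hP hP0 hP1 X.2, P * (em [true] X : Sup 0 1) * P⁻¹,
    conj_Sup_10186 hP hP0 hP1 (em [true] X).2, ?_⟩
  intro M h1 h2 f hf
  have hf' : P⁻¹ * f * P ∈ Sup 0 1 := by
    refine ⟨PLH.mul_mem (PLH.mul_mem (PLH.inv_mem hP) hf.1) hP, fun x hx => ?_⟩
    have hx' : P x ≤ a ∨ b ≤ P x := by
      rcases hx with hx | hx
      · left
        rw [← hP0]; exact hP.1.monotone hx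
      · right
        rw [← hP1]; exact hP.1.monotone hx
    rw [Equiv.Perm.mul_apply, Equiv.Perm.mul_apply, hf.2 _ hx', inv_left]
  have key : ∀ e : Sup 0 1, P * (e : Equiv.Perm ℝ) * P⁻¹ ∈ M := by
    intro e
    have he := gen_two e
    induction he using Subgroup.closure_induction with
    | mem z hz =>
      rcases hz with hz | hz
      · rw [hz]; exact h1
      · rw [Set.mem_singleton_iff] at hz
        rw [hz]; exact h2
    | one =>
      have : P * ((1 : Sup 0 1) : Equiv.Perm ℝ) * P⁻¹ = 1 := by
        push_cast; group
      rw [this]; exact M.one_mem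
    | mul z w _ _ hz hw =>
      have : P * ((z * w : Sup 0 1) : Equiv.Perm ℝ) * P⁻¹ =
          (P * (z : Equiv.Perm ℝ) * P⁻¹) * (P * (w : Equiv.Perm ℝ) * P⁻¹) := by
        push_cast; group
      rw [this]; exact M.mul_mem hz hw
    | inv z _ hz =>
      have : P * ((z⁻¹ : Sup 0 1) : Equiv.Perm ℝ) * P⁻¹ =
          (P * (z : Equiv.Perm ℝ) * P⁻¹)⁻¹ := by
        push_cast; group
      rw [this]; exact M.inv_mem hz
  have h3 := key ⟨_, hf'⟩
  have h4 : P * (P⁻¹ * f * P) * P⁻¹ = f := by group
  rw [← h4]; exact h3

/-! ### Contraction -/

open Filter Topology in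
theorem contract {y : Equiv.Perm ℝ} (hy : y ∈ PLH) {p : ℝ} (hp : y p = p)
    (h1 : ∀ z, p < z → z < y z) (h2 : ∀ z, z < p → y z < z) (z : ℝ) :
    Tendsto (fun n : ℕ => (y⁻¹ ^ n) z) atTop (𝓝 p) := by
  have hyi := PLH.inv_mem hy
  have hc : Continuous (y⁻¹ : Equiv.Perm ℝ) := PLf.cont hyi.2
  have hmono : StrictMono (y⁻¹ : Equiv.Perm ℝ) := hyi.1
  have hpi : y⁻¹ p = p := inv_fix_10051 hp
  have hpn : ∀ n : ℕ, (y⁻¹ ^ n) p = p := by
    intro n
    induction n with
    | zero => rfl
    | succ n ih => rw [pow_succ', Equiv.Perm.mul_apply, ih, hpi]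
  have hfix : ∀ l, y⁻¹ l = l → l = p := by
    intro l hl
    have hl' : y l = l := by
      conv_lhs => rw [← hl]
      exact inv_right y l
    rcases lt_trichotomy l p with h | h | h
    · have := h2 l h; linarith
    · exact h
    · have := h1 l h; linarith
  have hit : ∀ n : ℕ, (y⁻¹ ^ n) z = (y⁻¹ : Equiv.Perm ℝ)^[n] z := by
    intro n; rw [Equiv.Perm.iterate_eq_pow]
  have hlim : ∀ l, Tendsto (fun n : ℕ => (y⁻¹ ^ n) z) atTop (𝓝 l) → l = p := by
    intro l hl
    apply hfix
    have : Tendsto (fun n : ℕ => (y⁻¹ : Equiv.Perm ℝ)^[n] z) atTop (𝓝 l) := by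
      simpa only [hit] using hl
    exact isFixedPt_of_tendsto_iterate this hc.continuousAt
  have hpm : ∀ n : ℕ, StrictMono (y⁻¹ ^ n : Equiv.Perm ℝ) := fun n => (PLH.pow_mem hyi n).1
  rcases le_total p z with hz | hz
  · have hlow : ∀ n : ℕ, p ≤ (y⁻¹ ^ n) z := by
      intro n
      have := (hpm n).monotone hz
      rwa [hpn] at this
    have hanti : Antitone (fun n : ℕ => (y⁻¹ ^ n) z) := by
      apply antitone_nat_of_succ_le
      intro n
      show (y⁻¹ ^ (n + 1)) z ≤ (y⁻¹ ^ n) z
      rw [pow_succ', Equiv.Perm.mul_apply, ← hy.1.le_iff_le, inv_right]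
      rcases (hlow n).lt_or_eq with h | h
      · exact (h1 _ h).le
      · rw [← h, hp]
    have hbdd : BddBelow (Set.range (fun n : ℕ => (y⁻¹ ^ n) z)) := ⟨p, by
      rintro _ ⟨n, rfl⟩; exact hlow n⟩
    have ht := tendsto_atTop_ciInf hanti hbdd
    have := hlim _ ht
    rwa [this] at ht
  · have hup : ∀ n : ℕ, (y⁻¹ ^ n) z ≤ p := by
      intro n
      have := (hpm n).monotone hz
      rwa [hpn] at this
    have hmon : Monotone (fun n : ℕ => (y⁻¹ ^ n) z) := by
      apply monotone_nat_of_le_succ
      intro n
      show (y⁻¹ ^ n) z ≤ (y⁻¹ ^ (n + 1)) z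
      rw [pow_succ', Equiv.Perm.mul_apply, ← hy.1.le_iff_le, inv_right]
      rcases (hup n).lt_or_eq with h | h
      · exact (h2 _ h).le
      · rw [h, hp]
    have hbdd : BddAbove (Set.range (fun n : ℕ => (y⁻¹ ^ n) z)) := ⟨p, by
      rintro _ ⟨n, rfl⟩; exact hup n⟩
    have ht := tendsto_atTop_ciSup hmon hbdd
    have := hlim _ ht
    rwa [this] at ht

end Pool.Agent.Helper284.Spread
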