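import Mathlib
import Pool.Agent.Helper284.SpreadA

/-!
# The construction of a mate
-/

set_option autoImplicit false

namespace Pool.Agent.Helper284.Spread

open Pool.Agent.Helper283.PL

theorem PLH_dy {e : Equiv.Perm ℝ} (he : e ∈ PLH) {z : ℝ} (hz : Dy z) : Dy (e z) :=
  (PLat.dy (he.2 z)).2 hz

theorem aff1_apply (c z : ℝ) : aff_10050 1 c z = 2 * z + c := by
  show (2 : ℝ) ^ (1 : ℤ) * z + c = 2 * z + c
  rw [zpow_one]

/-- For an increasing dyadic map `x` with `p < x p` there is a dyadic map `y` which expands from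
its fixed point `p`, equals `z ↦ 2 z` near the ends, and which together with `x` induces prescribed
maps `v1`, `v2` on an interval `[a, b]`. -/
theorem exists_mate {x : Equiv.Perm ℝ} (hx : x ∈ PLH) {p : ℝ} (hp : Dy p) (hxp : p < x p) :
    ∃ a b : ℝ, Dy a ∧ Dy b ∧ a < b ∧ ∀ v1 ∈ Sup a b, ∀ v2 ∈ Sup a b, ∃ y ∈ PLH,
      (∃ R : ℝ, ∀ z, R ≤ |z| → y z = 2 * z) ∧ y p = p ∧ (∀ z, p < z → z < y z) ∧
      (∀ z, z < p → y z < z) ∧ y a < x p ∧ x p < y b ∧
      (∀ z, a ≤ z → z ≤ b → y (y z) = x (v1 z)) ∧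
      (∀ z, a ≤ z → z ≤ b → y (y (x z)) = x (x (v2 z))) := by
  obtain ⟨a, hda, hpa, hap⟩ := Dy.exists_between hxp
  obtain ⟨b, hdb, hab, hbp⟩ := Dy.exists_between hap
  have hm := hx.1
  have hxa : x p < x a := hm hpa
  obtain ⟨a1, hda1, hba1, ha1p⟩ := Dy.exists_between hbp
  obtain ⟨b1, hdb1, hpb1, hb1a⟩ := Dy.exists_between hxa
  have hxab : x a < x b := hm hab
  have hxb : x b < x (x a) := hm (hbp.trans hxa)
  obtain ⟨a3, hda3, hxba3, ha3⟩ := Dy.exists_between hxb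
  obtain ⟨b3, hdb3, hab3, hb3⟩ := Dy.exists_between ha3
  have hxxab : x (x a) < x (x b) := hm hxab
  refine ⟨a, b, hda, hdb, hab, ?_⟩
  intro v1 hv1 v2 hv2
  have hdxa : Dy (x a) := PLH_dy hx hda
  have hdxb : Dy (x b) := PLH_dy hx hdb
  have hdxxa : Dy (x (x a)) := PLH_dy hx hdxa
  have hdxxb : Dy (x (x b)) := PLH_dy hx hdxb
  -- far points
  obtain ⟨M, hM⟩ := exists_nat_gt (max (x (x b)) 0)
  have hM1 : x (x b) < M := (le_max_left _ _).trans_lt hM
  have hM0 : (0 : ℝ) < M := (le_max_right _ _).trans_lt hM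
  obtain ⟨L0, hL0⟩ := exists_nat_gt (max (-p) 0)
  set L : ℝ := -(L0 : ℝ) with hLdef
  have hLp : L < p := by
    have : -p < (L0 : ℝ) := (le_max_left _ _).trans_lt hL0
    rw [hLdef]; linarith
  have hLneg : L < 0 := by
    have : (0 : ℝ) < L0 := (le_max_right _ _).trans_lt hL0
    rw [hLdef]; linarith
  have hdM : Dy (M : ℝ) := Dy.nat M
  have hdL : Dy L := (Dy.nat L0).neg
  have hd2M : Dy (2 * (M : ℝ)) := by
    have := hdM.add hdM
    rwa [← two_mul] at this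
  have hd2L : Dy (2 * L) := by
    have := hdL.add hdL
    rwa [← two_mul] at this
  -- the point d
  have hdmin : a < min a1 (2 * a - p) := lt_min (by linarith) (by linarith)
  obtain ⟨d, hdd, had, hdm⟩ := Dy.exists_between hdmin
  have hd1 : d < a1 := hdm.trans_le (min_le_left _ _)
  have hd2 : d < 2 * a - p := hdm.trans_le (min_le_right _ _)
  set c : ℝ := (p + d) / 2 with hc
  have hdc : Dy c := (hp.add hdd).half
  have hpc : p < c := by rw [hc]; linarith
  have hca : c < a := by rw [hc]; linarith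
  set e : ℝ := (p + L) / 2 with hedef
  have hde : Dy e := (hp.add hdL).half
  have hep : e < p := by rw [hedef]; linarith
  have hLe : L < e := by rw [hedef]; linarith
  -- the pieces
  set g0 := aff_10050 1 0 with hg0
  have hg0m : g0 ∈ PLH := aff_mem_10050 1 Dy.zero
  have hg0a : ∀ z, g0 z = 2 * z := fun z => by rw [hg0, aff1_apply]; ring
  obtain ⟨g1, hg1m, hg1a, hg1b⟩ := PLH_interp hdL hde hd2L hdL hLe (by linarith : 2 * L < L)
  set g2 := aff_10050 1 (-p) with hg2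
  have hg2m : g2 ∈ PLH := aff_mem_10050 1 hp.neg
  have hg2a : ∀ z, g2 z = 2 * z - p := fun z => by rw [hg2, aff1_apply]; ring
  obtain ⟨g3, hg3m, hg3a, hg3b⟩ := PLH_interp hdc hda hdd hda1 hca hd1
  obtain ⟨g4, hg4m, hg4a, hg4b⟩ := PLH_interp hda hdb hda1 hdb1 hab (ha1p.trans hpb1)
  obtain ⟨g5, hg5m, hg5a, hg5b⟩ := PLH_interp hdb hda1 hdb1 hdxa hba1 hb1a
  set g6 := x * v1 * g4⁻¹ with hg6
  have hg6m : g6 ∈ PLH := PLH.mul_mem (PLH.mul_mem hx hv1.1) (PLH.inv_mem hg4m)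
  have hv1a : v1 a = a := hv1.2 a (Or.inl le_rfl)
  have hv1b : v1 b = b := hv1.2 b (Or.inr le_rfl)
  have hv2a : v2 a = a := hv2.2 a (Or.inl le_rfl)
  have hv2b : v2 b = b := hv2.2 b (Or.inr le_rfl)
  have hg6a : g6 a1 = x a := by
    rw [hg6, Equiv.Perm.mul_apply, Equiv.Perm.mul_apply, ← hg4a, inv_left, hv1a]
  have hg6b : g6 b1 = x b := by
    rw [hg6, Equiv.Perm.mul_apply, Equiv.Perm.mul_apply, ← hg4b, inv_left, hv1b]
  obtain ⟨g7, hg7m, hg7a, hg7b⟩ := PLH_interp hdb1 hdxa hdxb hda3 hb1a hxba3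
  obtain ⟨g8, hg8m, hg8a, hg8b⟩ := PLH_interp hdxa hdxb hda3 hdb3 hxab hab3
  obtain ⟨g9, hg9m, hg9a, hg9b⟩ := PLH_interp hdxb hda3 hdb3 hdxxa hxba3 hb3
  set g10 := x * x * v2 * x⁻¹ * g8⁻¹ with hg10
  have hg10m : g10 ∈ PLH := PLH.mul_mem (PLH.mul_mem (PLH.mul_mem (PLH.mul_mem hx hx) hv2.1)
    (PLH.inv_mem hx)) (PLH.inv_mem hg8m)
  have hg10e : ∀ z, g10 z = x (x (v2 (x⁻¹ (g8⁻¹ z)))) := fun z => rfl
  have hg10a : g10 a3 = x (x a) := by
    rw [hg10e, ← hg8a, inv_left, inv_left, hv2a]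
  have hg10b : g10 b3 = x (x b) := by
    rw [hg10e, ← hg8b, inv_left, inv_left, hv2b]
  obtain ⟨g11, hg11m, hg11a, hg11b⟩ := PLH_interp hdb3 hdxxb hdxxb hdM
    (hb3.trans hxxab) hM1
  obtain ⟨g12, hg12m, hg12a, hg12b⟩ := PLH_interp hdxxb hdM hdM hd2M hM1
    (by linarith : (M : ℝ) < 2 * M)
  -- gluing
  obtain ⟨e1, he1m, he1a, he1b⟩ := PLH_glue hg0m hg1m hdL (by rw [hg0a, hg1a])
  obtain ⟨e2, he2m, he2a, he2b⟩ := PLH_glue he1m hg2m hde
    (by rw [he1b e hLe.le, hg1b, hg2a, hedef]; ring)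
  obtain ⟨e3, he3m, he3a, he3b⟩ := PLH_glue he2m hg3m hdc
    (by rw [he2b c (by linarith), hg2a, hg3a, hc]; ring)
  obtain ⟨e4, he4m, he4a, he4b⟩ := PLH_glue he3m hg4m hda
    (by rw [he3b a hca.le, hg3b, hg4a])
  obtain ⟨e5, he5m, he5a, he5b⟩ := PLH_glue he4m hg5m hdb
    (by rw [he4b b hab.le, hg4b, hg5a])
  obtain ⟨e6, he6m, he6a, he6b⟩ := PLH_glue he5m hg6m hda1
    (by rw [he5b a1 hba1.le, hg5b, hg6a])
  have ha1b1 : a1 < b1 := ha1p.trans hpb1
  obtain ⟨e7, he7m, he7a, he7b⟩ := PLH_glue he6m hg7m hdb1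
    (by rw [he6b b1 ha1b1.le, hg6b, hg7a])
  obtain ⟨e8, he8m, he8a, he8b⟩ := PLH_glue he7m hg8m hdxa
    (by rw [he7b (x a) hb1a.le, hg7b, hg8a])
  obtain ⟨e9, he9m, he9a, he9b⟩ := PLH_glue he8m hg9m hdxb
    (by rw [he8b (x b) hxab.le, hg8b, hg9a])
  obtain ⟨e10, he10m, he10a, he10b⟩ := PLH_glue he9m hg10m hda3
    (by rw [he9b a3 hxba3.le, hg9b, hg10a])
  obtain ⟨e11, he11m, he11a, he11b⟩ := PLH_glue he10m hg11m hdb3
    (by rw [he10b b3 hab3.le, hg10b, hg11a])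
  have hb3x : b3 < x (x b) := hb3.trans hxxab
  obtain ⟨e12, he12m, he12a, he12b⟩ := PLH_glue he11m hg12m hdxxb
    (by rw [he11b (x (x b)) hb3x.le, hg11b, hg12a])
  obtain ⟨y, hym, hya, hyb⟩ := PLH_glue he12m hg0m hdM
    (by rw [he12b M hM1.le, hg12b, hg0a])
  have q12 : ∀ z, z ≤ (M : ℝ) → x (x b) ≤ z → y z = g12 z := fun z h1 h2 => by
    rw [hya z h1, he12b z h2]
  have q11 : ∀ z, z ≤ x (x b) → y z = e11 z := fun z h1 => by
    rw [hya z (by linarith), he12a z h1]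
  have q10 : ∀ z, z ≤ b3 → y z = e10 z := fun z h1 => by
    rw [q11 z (by linarith), he11a z h1]
  have q9 : ∀ z, z ≤ a3 → y z = e9 z := fun z h1 => by
    rw [q10 z (by linarith), he10a z h1]
  have q8 : ∀ z, z ≤ x b → y z = e8 z := fun z h1 => by
    rw [q9 z (by linarith), he9a z h1]
  have q7 : ∀ z, z ≤ x a → y z = e7 z := fun z h1 => by
    rw [q8 z (by linarith), he8a z h1]
  have q6 : ∀ z, z ≤ b1 → y z = e6 z := fun z h1 => by
    rw [q7 z (by linarith), he7a z h1]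
  have q5 : ∀ z, z ≤ a1 → y z = e5 z := fun z h1 => by
    rw [q6 z (by linarith), he6a z h1]
  have q4 : ∀ z, z ≤ b → y z = e4 z := fun z h1 => by
    rw [q5 z (by linarith), he5a z h1]
  have q3 : ∀ z, z ≤ a → y z = e3 z := fun z h1 => by
    rw [q4 z (by linarith), he4a z h1]
  have q2 : ∀ z, z ≤ c → y z = e2 z := fun z h1 => by
    rw [q3 z (by linarith), he3a z h1]
  have q1 : ∀ z, z ≤ e → y z = e1 z := fun z h1 => by
    rw [q2 z (by linarith), he2a z h1]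
  have q0 : ∀ z, z ≤ L → y z = 2 * z := fun z h1 => by
    rw [q1 z (by linarith), he1a z h1, hg0a]
  have qM : ∀ z, (M : ℝ) ≤ z → y z = 2 * z := fun z h1 => by rw [hyb z h1, hg0a]
  -- values at the knots
  have y2 : ∀ z, e ≤ z → z ≤ c → y z = 2 * z - p := fun z h1 h2 => by
    rw [q2 z h2, he2b z h1, hg2a]
  have yp : y p = p := by rw [y2 p hep.le hpc.le]; ring
  have ye : y e = L := by rw [y2 e le_rfl (by linarith), hedef]; ring
  have yc : y c = d := by rw [y2 c (by linarith) le_rfl, hc]; ring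
  have y4 : ∀ z, a ≤ z → z ≤ b → y z = g4 z := fun z h1 h2 => by rw [q4 z h2, he4b z h1]
  have ya : y a = a1 := by rw [y4 a le_rfl hab.le, hg4a]
  have yb : y b = b1 := by rw [y4 b hab.le le_rfl, hg4b]
  have y6 : ∀ z, a1 ≤ z → z ≤ b1 → y z = g6 z := fun z h1 h2 => by rw [q6 z h2, he6b z h1]
  have ya1 : y a1 = x a := by rw [y6 a1 le_rfl ha1b1.le, hg6a]
  have yb1 : y b1 = x b := by rw [y6 b1 ha1b1.le le_rfl, hg6b]
  have y8 : ∀ z, x a ≤ z → z ≤ x b → y z = g8 z := fun z h1 h2 => by rw [q8 z h2, he8b z h1]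
  have yxa : y (x a) = a3 := by rw [y8 _ le_rfl hxab.le, hg8a]
  have yxb : y (x b) = b3 := by rw [y8 _ hxab.le le_rfl, hg8b]
  have y10 : ∀ z, a3 ≤ z → z ≤ b3 → y z = g10 z := fun z h1 h2 => by rw [q10 z h2, he10b z h1]
  have ya3 : y a3 = x (x a) := by rw [y10 _ le_rfl hab3.le, hg10a]
  have yb3 : y b3 = x (x b) := by rw [y10 _ hab3.le le_rfl, hg10b]
  have yxx : y (x (x b)) = M := by rw [q12 _ hM1.le le_rfl, hg12a]
  have hmono := hym.1.monotone
  refine ⟨y, hym, ⟨max M (-L), ?_⟩, yp, ?_, ?_, ?_, ?_, ?_, ?_⟩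
  · intro z hz
    have h1 := (le_max_left (M : ℝ) (-L)).trans hz
    have h2 := (le_max_right (M : ℝ) (-L)).trans hz
    rcases le_total 0 z with h | h
    · rw [abs_of_nonneg h] at h1
      exact qM z h1
    · rw [abs_of_nonpos h] at h2
      exact q0 z (by linarith)
  · intro z hz
    rcases le_or_gt z c with h | h
    · rw [y2 z (by linarith) h]; linarith
    rcases lt_or_ge z a with k | k
    · have := hmono h.le; rw [yc] at this; linarith
    rcases lt_or_ge z b with k1 | k1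
    · have := hmono k; rw [ya] at this; linarith
    rcases lt_or_ge z a1 with k2 | k2
    · have := hmono k1; rw [yb] at this; linarith
    rcases lt_or_ge z b1 with k3 | k3
    · have := hmono k2; rw [ya1] at this; linarith
    rcases lt_or_ge z (x a) with k4 | k4
    · have := hmono k3; rw [yb1] at this; linarith
    rcases lt_or_ge z (x b) with k5 | k5
    · have := hmono k4; rw [yxa] at this; linarith
    rcases lt_or_ge z a3 with k6 | k6
    · have := hmono k5; rw [yxb] at this; linarith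
    rcases lt_or_ge z b3 with k7 | k7
    · have := hmono k6; rw [ya3] at this; linarith
    rcases lt_or_ge z (x (x b)) with k8 | k8
    · have := hmono k7; rw [yb3] at this; linarith
    rcases lt_or_ge z M with k9 | k9
    · have := hmono k8; rw [yxx] at this; linarith
    rw [qM z k9]; linarith
  · intro z hz
    rcases le_or_gt e z with h | h
    · rw [y2 z h (by linarith)]; linarith
    rcases lt_or_ge L z with k | k
    · have := hmono h.le; rw [ye] at this; linarith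
    rw [q0 z k]; linarith
  · rw [ya]; exact ha1p
  · rw [yb]; exact hpb1
  · intro z h1 h2
    have k1 : a1 ≤ y z := by rw [← ya]; exact hmono h1
    have k2 : y z ≤ b1 := by rw [← yb]; exact hmono h2
    rw [y6 _ k1 k2, y4 z h1 h2, hg6]
    show x (v1 (g4⁻¹ (g4 z))) = x (v1 z)
    rw [inv_left]
  · intro z h1 h2
    have l1 : x a ≤ x z := hm.monotone h1
    have l2 : x z ≤ x b := hm.monotone h2
    have k1 : a3 ≤ y (x z) := by rw [← yxa]; exact hmono l1
    have k2 : y (x z) ≤ b3 := by rw [← yxb]; exact hmono l2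
    rw [y10 _ k1 k2, y8 _ l1 l2, hg10e, inv_left, inv_left]

end Pool.Agent.Helper284.Spread
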